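import Pool.Agent.Q181.BD.Stm3

set_option autoImplicit false

/-!
# The determinant of a matrix whose terms have two values
-/

namespace Pool.Agent.Q150.BD

open Pool.Agent.Q181.BD TH57.Thr

variable {G : Type} [CommGroup G] {κ : Type}

theorem prod_coeff (f : κ → MonoidAlgebra ℤ G) (s : Finset κ) (g : G)
    (hg : (∏ i ∈ s, f i).coeff g ≠ 0) :
    ∃ e : κ → G, (∀ i ∈ s, (f i).coeff (e i) ≠ 0) ∧ ∏ i ∈ s, e i = g := by
  classical
  induction s using Finset.induction_on generalizing g with
  | empty =>
    refine ⟨fun _ => 1, by simp, ?_⟩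
    by_contra hne
    apply hg
    rw [Finset.prod_empty] at hne ⊢
    rw [MonoidAlgebra.one_def, MonoidAlgebra.coeff_single, Finsupp.single_apply, if_neg hne]
  | insert a s ha ih =>
    rw [Finset.prod_insert ha, MonoidAlgebra.coeff_mul_apply_left, Finsupp.sum] at hg
    obtain ⟨x, hx, hxg⟩ := Finset.exists_ne_zero_of_sum_ne_zero hg
    obtain ⟨e, he, hprod⟩ := ih _ (right_ne_zero_of_mul hxg)
    refine ⟨fun i => if i = a then x else e i, ?_, ?_⟩
    · intro i hi
      rcases Finset.mem_insert.1 hi with rfl | hi'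
      · simp only [if_true]
        exact left_ne_zero_of_mul hxg
      · have hia : i ≠ a := by rintro rfl; exact ha hi'
        simp only [if_neg hia]
        exact he i hi'
    · rw [Finset.prod_insert ha, if_pos rfl]
      have : ∏ i ∈ s, (if i = a then x else e i) = ∏ i ∈ s, e i :=
        Finset.prod_congr rfl fun i hi => if_neg (by rintro rfl; exact ha hi)
      rw [this, hprod, mul_inv_cancel_left]

theorem det_term [Fintype κ] [DecidableEq κ] (A : Matrix κ κ (MonoidAlgebra ℤ G)) (g : G)
    (hg : A.det.coeff g ≠ 0) : ∃ t : Term A, t.val = g := by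
  have hdet : A.det = ∑ σ : Equiv.Perm κ, Equiv.Perm.sign σ • ∏ i, A i (σ i) := by
    rw [← Matrix.det_transpose, Matrix.det_apply]
    rfl
  rw [hdet, MonoidAlgebra.coeff_sum, Finsupp.finsetSum_apply] at hg
  obtain ⟨σ, -, hσ⟩ := Finset.exists_ne_zero_of_sum_ne_zero hg
  have h1 : (∏ i, A i (σ i)).coeff g ≠ 0 := by
    intro h0
    apply hσ
    rcases Int.units_eq_one_or (Equiv.Perm.sign σ) with h | h
    · rw [h, one_smul]
      exact h0
    · rw [h, Units.neg_smul, one_smul, MonoidAlgebra.coeff_neg, Finsupp.neg_apply, neg_eq_zero]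
      exact h0
  obtain ⟨e, he, hprod⟩ := prod_coeff (fun i => A i (σ i)) Finset.univ g h1
  exact ⟨⟨σ, e, fun i => he i (Finset.mem_univ i)⟩, hprod⟩

theorem bin_of_supp (f : MonoidAlgebra ℤ G) (a b : G)
    (h : ∀ g, f.coeff g ≠ 0 → g = a ∨ g = b) : Bin f := by
  classical
  refine ⟨{((a, f.coeff a), (b, if b = a then 0 else f.coeff b))}, ?_⟩
  simp only [Multiset.map_singleton, Multiset.prod_singleton]
  ext g
  simp only [MonoidAlgebra.coeff_add, Finsupp.add_apply, MonoidAlgebra.coeff_single,
    Finsupp.single_apply]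
  by_cases h1 : a = g
  · subst h1
    by_cases h2 : b = a
    · simp [h2]
    · simp [h2]
  · by_cases h2 : b = g
    · subst h2
      simp [h1, Ne.symm h1]
    · rw [if_neg h1, if_neg h2]
      by_contra hne
      rcases h g (by simpa using hne) with h | h
      · exact h1 h.symm
      · exact h2 h.symm

theorem t_dettwo : S_dettwo := by
  intro G _ htf κ _ _ A h hval
  classical
  have hpair : ∀ g g' : G, A.det.coeff g ≠ 0 → A.det.coeff g' ≠ 0 → g ≠ g' →
      g = h * g' ∨ g' = h * g := by
    intro g g' hg hg' hne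
    obtain ⟨t, rfl⟩ := det_term A g hg
    obtain ⟨t', rfl⟩ := det_term A g' hg'
    exact (hval t t').resolve_left hne
  by_cases h0 : ∃ a, A.det.coeff a ≠ 0
  swap
  · push Not at h0
    exact bin_of_supp _ 1 1 fun g hg => absurd (h0 g) hg
  obtain ⟨a, ha⟩ := h0
  by_cases h1 : ∃ b, b ≠ a ∧ A.det.coeff b ≠ 0
  swap
  · push Not at h1
    refine bin_of_supp _ a a fun g hg => ?_
    by_contra hne
    push Not at hne
    exact hg (h1 g hne.1)
  obtain ⟨b, hba, hb⟩ := h1
  refine bin_of_supp _ a b fun g hg => ?_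
  by_contra hne
  push Not at hne
  obtain ⟨hga, hgb⟩ := hne
  have hh1 : h ≠ 1 := by
    rintro rfl
    rcases hpair a b ha hb hba.symm with h | h
    · exact hba (by rw [h, one_mul])
    · exact hba (by rw [h, one_mul])
  have hh3 : h ^ 3 ≠ 1 := fun h3 => hh1 (htf h 3 (by norm_num) h3)
  -- all cases
  rcases hpair a b ha hb hba.symm with e1 | e1 <;>
    rcases hpair b g hb hg hgb.symm with e2 | e2 <;>
    rcases hpair a g ha hg hga.symm with e3 | e3
  · -- a = h b, b = h g, a = h g
    exact hba (e2.trans e3.symm)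
  · -- a = h b, b = h g, g = h a
    apply hh3
    have : g = h ^ 3 * g := by
      conv_lhs => rw [e3, e1, e2]
      rw [pow_three, mul_assoc, mul_assoc]
    exact (mul_eq_right.1 this.symm)
  · -- a = h b, g = h b, a = h g
    exact hga (e2.trans e1.symm)
  · exact hga (e2.trans e1.symm)
  · -- b = h a, b = h g
    exact hga (mul_left_cancel (e2.symm.trans e1))
  · exact hga (mul_left_cancel (e2.symm.trans e1))
  · -- b = h a, g = h b, a = h g
    apply hh3
    have : a = h ^ 3 * a := by
      conv_lhs => rw [e3, e2, e1]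
      rw [pow_three, mul_assoc, mul_assoc]
    exact (mul_eq_right.1 this.symm)
  · -- b = h a, g = h b, g = h a
    exact hgb (e3.trans e1.symm)

end Pool.Agent.Q150.BD
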