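import Pool.Agent.Q150.BD.Four

set_option autoImplicit false

/-!
# The dichotomy
-/

namespace Pool.Agent.Q150.BD

open Pool.Agent.Q181.BD TH57.Thr

variable {G : Type} [CommGroup G] {κ : Type}

theorem conn_mv {A : Matrix κ κ (MonoidAlgebra ℤ G)} (g : G) {u v : Vx G κ κ}
    (h : Conn (wz A) u v) : Conn (wz A) (mv g u) (mv g v) := by
  induction h with
  | refl => exact Relation.ReflTransGen.refl
  | tail _ hbc ih => exact Relation.ReflTransGen.tail ih (by rw [wz_mv]; exact hbc)

theorem mv_comm (g k : G) (v : Vx G κ κ) : mv g (mv k v) = mv k (mv g v) := by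
  rw [← mv_mul, ← mv_mul, mul_comm]

/-- the stabiliser of the component of a vertex -/
def St (A : Matrix κ κ (MonoidAlgebra ℤ G)) (v : Vx G κ κ) : Subgroup G where
  carrier := {g | Conn (wz A) v (mv g v)}
  mul_mem' := by
    intro g h hg hh
    change Conn (wz A) v (mv (g * h) v)
    rw [mv_mul]
    exact Relation.ReflTransGen.trans hg (conn_mv g hh)
  one_mem' := by
    change Conn (wz A) v (mv 1 v)
    rw [mv_one]
    exact Relation.ReflTransGen.refl
  inv_mem' := by
    intro g hg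
    change Conn (wz A) v (mv g⁻¹ v)
    have := conn_mv g⁻¹ hg
    rw [← mv_mul, inv_mul_cancel, mv_one] at this
    exact conn_symm (wz_symm A) this

theorem mem_St (A : Matrix κ κ (MonoidAlgebra ℤ G)) (v : Vx G κ κ) (g : G) :
    g ∈ St A v ↔ Conn (wz A) v (mv g v) := Iff.rfl

theorem St_mv (A : Matrix κ κ (MonoidAlgebra ℤ G)) (v : Vx G κ κ) (g : G) :
    St A (mv g v) = St A v := by
  ext k
  rw [mem_St, mem_St, mv_comm k g]
  constructor
  · intro h
    have := conn_mv g⁻¹ h
    rwa [← mv_mul, ← mv_mul, inv_mul_cancel, mv_one, mv_one] at this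
  · exact conn_mv g

theorem St_conn (A : Matrix κ κ (MonoidAlgebra ℤ G)) {u v : Vx G κ κ} (h : Conn (wz A) u v) :
    St A u = St A v := by
  ext k
  rw [mem_St, mem_St]
  constructor
  · intro h'
    exact ((conn_symm (wz_symm A) h).trans h').trans (conn_mv k h)
  · intro h'
    exact (h.trans h').trans (conn_mv k (conn_symm (wz_symm A) h))

/-- in an irreducible matrix every vertex is connected to a translate of every other vertex -/
theorem conn_of_irr [Fintype κ] [DecidableEq κ] {A : Matrix κ κ (MonoidAlgebra ℤ G)}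
    (hIrr : Irr A) (u v : Vx G κ κ) : ∃ g : G, Conn (wz A) u (mv g v) := by
  classical
  have h := hIrr
    (Finset.univ.filter (fun i => ∃ g : G, Conn (wz A) u (Sum.inl (g, i))))
    (Finset.univ.filter (fun j => ∃ g : G, Conn (wz A) u (Sum.inr (g, j)))) (by
      intro i j hij
      obtain ⟨a, ha⟩ : ∃ a, (A i j).coeff a ≠ 0 := by
        by_contra hcon
        push Not at hcon
        apply hij
        ext a
        simpa using hcon a
      simp only [Finset.mem_filter, Finset.mem_univ, true_and]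
      constructor
      · rintro ⟨g, hg⟩
        refine ⟨g * a, Relation.ReflTransGen.tail hg ?_⟩
        simpa [wz] using ha
      · rintro ⟨g, hg⟩
        refine ⟨g * a⁻¹, Relation.ReflTransGen.tail hg ?_⟩
        simp only [wz]
        rwa [show (g * a⁻¹)⁻¹ * g = a by group])
  rcases h with ⟨h1, h2⟩ | ⟨h1, h2⟩
  · exfalso
    rcases u with ⟨g, i⟩ | ⟨g, j⟩
    · have : i ∈ (∅ : Finset κ) := by
        rw [← h1, Finset.mem_filter]
        exact ⟨Finset.mem_univ _, g, Relation.ReflTransGen.refl⟩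
      exact absurd this (Finset.notMem_empty _)
    · have : j ∈ (∅ : Finset κ) := by
        rw [← h2, Finset.mem_filter]
        exact ⟨Finset.mem_univ _, g, Relation.ReflTransGen.refl⟩
      exact absurd this (Finset.notMem_empty _)
  · rcases v with ⟨g', i⟩ | ⟨g', j⟩
    · have : i ∈ (Finset.univ : Finset κ) := Finset.mem_univ i
      rw [← h1, Finset.mem_filter] at this
      obtain ⟨-, g, hg⟩ := this
      refine ⟨g * g'⁻¹, ?_⟩
      rw [show (mv (g * g'⁻¹) (Sum.inl (g', i)) : Vx G κ κ) = Sum.inl (g, i) by simp [mv]]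
      exact hg
    · have : j ∈ (Finset.univ : Finset κ) := Finset.mem_univ j
      rw [← h2, Finset.mem_filter] at this
      obtain ⟨-, g, hg⟩ := this
      refine ⟨g * g'⁻¹, ?_⟩
      rw [show (mv (g * g'⁻¹) (Sum.inr (g', j)) : Vx G κ κ) = Sum.inr (g, j) by simp [mv]]
      exact hg

theorem Cyc_mv [Fintype κ] [DecidableEq κ] {A : Matrix κ κ (MonoidAlgebra ℤ G)} (t t' : Term A)
    (i : κ) (g : G) (v : Vx G κ κ) : Cyc t t' i (mv g v) ↔ Cyc t t' i v := by
  rcases v with v | v <;> exact Iff.rfl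

theorem Cyc_same [Fintype κ] [DecidableEq κ] {A : Matrix κ κ (MonoidAlgebra ℤ G)} (t t' : Term A)
    (i i' : κ) (v : Vx G κ κ) (h : Cyc t t' i v) (h' : Cyc t t' i' v) :
    (cp2 t t').SameCycle i i' := by
  rcases v with v | v <;> exact Equiv.Perm.SameCycle.trans h (Equiv.Perm.SameCycle.symm h')

theorem zp_unique (htf : ∀ g : G, ∀ k : ℕ, 0 < k → g ^ k = 1 → g = 1) {a b : G} (ha : a ≠ 1)
    (hab : Subgroup.zpowers a = Subgroup.zpowers b) : b = a ∨ b = a⁻¹ := by
  have h1 : b ∈ Subgroup.zpowers a := by rw [hab]; exact Subgroup.mem_zpowers b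
  have h2 : a ∈ Subgroup.zpowers b := by rw [← hab]; exact Subgroup.mem_zpowers a
  obtain ⟨k, hk⟩ := Subgroup.mem_zpowers_iff.1 h1
  obtain ⟨m, hm⟩ := Subgroup.mem_zpowers_iff.1 h2
  have h3 : a ^ (k * m - 1) = 1 := by
    rw [zpow_sub, zpow_mul, hk, hm, zpow_one, mul_inv_cancel]
  have h4 : k * m = 1 := by
    by_contra hne
    apply ha
    apply htf a (k * m - 1).natAbs (by omega)
    rcases Int.natAbs_eq (k * m - 1) with h | h
    · rw [← zpow_natCast, ← h, h3]
    · rw [← zpow_natCast, ← inv_inj, ← zpow_neg, ← h, h3, inv_one]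
  rcases Int.eq_one_or_neg_one_of_mul_eq_one h4 with h | h
  · left
    rw [← hk, h, zpow_one]
  · right
    rw [← hk, h, zpow_neg, zpow_one]

theorem t_dich : S_orb → S_four → S_dich := by
  intro horb hfour G _ htf κ _ _ A c hN hIrr
  classical
  by_cases h4 : A * (A.transpose.map (brr G)) = 4
  · exact Or.inl h4
  right
  have hsym := wz_symm A
  -- two disjoint connected paths are impossible
  have hno : ∀ (z z' : ℤ → Vx G κ κ) (L L' : ℕ) (d d' : G), 1 ≤ L → 1 ≤ L' →
      Function.Injective z → Function.Injective z' → (∀ j, wz A (z j) (z (j + 1)) ≠ 0) →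
      (∀ j, wz A (z' j) (z' (j + 1)) ≠ 0) → (∀ j, mv d (z j) = z (j + 2 * L)) →
      (∀ j, mv d' (z' j) = z' (j + 2 * L')) → Conn (wz A) (z 0) (z' 0) →
      ∃ i j, z i = z' j := by
    intro z z' L L' d d' h1 h2 h3 h4' h5 h6 h7 h8 h9
    by_contra hcon
    push Not at hcon
    exact h4 (hfour G κ A c hN hIrr z z' L L' d d' h1 h2 h3 h4' h5 h6 h7 h8 hcon h9)
  -- the stabiliser
  have hst : ∀ (t t' : Term A) (i : κ), dr t t' i ≠ 1 → ∃ v : Vx G κ κ,
      St A v = Subgroup.zpowers (dr t t' i) := by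
    intro t t' i hne
    obtain ⟨z, L, hL, hz, hzz, hd, hC, hg⟩ := horb G htf κ A t t' i hne
    refine ⟨z 0, le_antisymm ?_ ?_⟩
    · intro g hgc
      rw [mem_St] at hgc
      obtain ⟨a, b, hab⟩ := hno z (fun j => mv g (z j)) L L (dr t t' i) (dr t t' i) hL hL hz
        (fun x y hxy => hz ((mv_inj g).1 hxy)) hzz (fun j => by rw [wz_mv]; exact hzz j) hd
        (fun j => by rw [mv_comm, hd]) hgc
      exact hg g b a hab.symm
    · rw [Subgroup.zpowers_le, mem_St, hd]
      exact conn_path hsym hzz _ _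
  -- only one cycle has a nontrivial drift
  have hone : ∀ (t t' : Term A) (i i' : κ), dr t t' i ≠ 1 → dr t t' i' ≠ 1 →
      (cp2 t t').SameCycle i i' := by
    intro t t' i i' hne hne'
    obtain ⟨z, L, hL, hz, hzz, hd, hC, hg⟩ := horb G htf κ A t t' i hne
    obtain ⟨z', L', hL', hz', hzz', hd', hC', hg'⟩ := horb G htf κ A t t' i' hne'
    obtain ⟨g, hgc⟩ := conn_of_irr hIrr (z 0) (z' 0)
    obtain ⟨a, b, hab⟩ := hno z (fun j => mv g (z' j)) L L' (dr t t' i) (dr t t' i') hL hL' hz
        (fun x y hxy => hz' ((mv_inj g).1 hxy)) hzz (fun j => by rw [wz_mv]; exact hzz' j) hd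
        (fun j => by rw [mv_comm, hd']) hgc
    apply Cyc_same t t' i i' (z a) (hC a)
    rw [hab, Cyc_mv]
    exact hC' b
  -- the values of two terms
  have hval : ∀ t t' : Term A, t.val ≠ t'.val → ∃ i, dr t t' i ≠ 1 ∧
      t.val = dr t t' i * t'.val := by
    intro t t' hne
    have hprod : t.val * t'.val⁻¹ = ∏ j, t.e j * (t'.e j)⁻¹ := by
      rw [Term.val, Term.val, Finset.prod_mul_distrib, Finset.prod_inv_distrib]
    have hcanc : ∀ s : Finset κ, (∀ x ∈ s, ∀ y, (cp2 t t').SameCycle x y → y ∈ s) →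
        (∀ x ∈ s, dr t t' x = 1) → ∏ j ∈ s, t.e j * (t'.e j)⁻¹ = 1 := by
      intro s hs hs1
      apply Finset.prod_cancels_of_partition_cancels (Equiv.Perm.SameCycle.setoid (cp2 t t'))
      intro x hx
      rw [← hs1 x hx]
      unfold dr
      refine Finset.prod_congr ?_ fun _ _ => rfl
      ext y
      simp only [Finset.mem_filter, Finset.mem_univ, true_and]
      constructor
      · rintro ⟨-, h⟩
        exact Equiv.Perm.SameCycle.symm h
      · intro h
        exact ⟨hs x hx y h, Equiv.Perm.SameCycle.symm h⟩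
    obtain ⟨i, hi⟩ : ∃ i, dr t t' i ≠ 1 := by
      by_contra hcon
      push Not at hcon
      apply hne
      rw [← mul_inv_eq_one, hprod]
      exact hcanc Finset.univ (fun _ _ _ _ => Finset.mem_univ _) fun x _ => hcon x
    refine ⟨i, hi, ?_⟩
    rw [← mul_inv_eq_iff_eq_mul, hprod,
      ← Finset.prod_filter_mul_prod_filter_not Finset.univ (fun j => (cp2 t t').SameCycle i j),
      hcanc (Finset.univ.filter fun j => ¬ (cp2 t t').SameCycle i j), mul_one]
    · rfl
    · intro x hx y hxy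
      rw [Finset.mem_filter] at hx ⊢
      exact ⟨Finset.mem_univ _, fun h => hx.2 (h.trans hxy.symm)⟩
    · intro x hx
      rw [Finset.mem_filter] at hx
      by_contra hne'
      exact hx.2 (hone t t' i x hi hne')
  by_cases hall : ∀ t t' : Term A, t.val = t'.val
  · exact ⟨1, fun t t' => Or.inl (hall t t')⟩
  push Not at hall
  obtain ⟨t₀, t₀', hne₀⟩ := hall
  obtain ⟨i₀, hi₀, -⟩ := hval t₀ t₀' hne₀
  obtain ⟨v₀, hv₀⟩ := hst t₀ t₀' i₀ hi₀
  refine ⟨dr t₀ t₀' i₀, fun t t' => ?_⟩
  by_cases hne : t.val = t'.val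
  · exact Or.inl hne
  right
  obtain ⟨i, hi, hti⟩ := hval t t' hne
  obtain ⟨v, hv⟩ := hst t t' i hi
  obtain ⟨g, hg⟩ := conn_of_irr hIrr v₀ v
  have hz : Subgroup.zpowers (dr t₀ t₀' i₀) = Subgroup.zpowers (dr t t' i) := by
    rw [← hv₀, ← hv, St_conn A hg, St_mv]
  rcases zp_unique htf hi₀ hz with h | h
  · left
    rw [hti, h]
  · right
    rw [hti, h, mul_inv_cancel_left]

end Pool.Agent.Q150.BD
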