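import Pool.Agent.Q181.BD.Stm3

set_option autoImplicit false

/-!
# Two disjoint connected periodic paths force `A A^* = 4`
-/

namespace Pool.Agent.Q150.BD

open Pool.Agent.Q181.BD TH57.Thr

section gen

variable {V : Type} {W : V → V → ℤ} {c : ℝ}

/-- neighbourhoods are finite -/
theorem nb_fin (hdeg : S_deg) (hN : Net W c) (u : V) : {v | W u v ≠ 0}.Finite := by
  by_contra hinf
  obtain ⟨S, hS, hc⟩ := (show {v | W u v ≠ 0}.Infinite from hinf).exists_subset_card_eq 5
  have h1 := hdeg V W c hN u S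
  have h2 : (S.card : ℤ) ≤ ∑ v ∈ S, W u v ^ 2 := by
    have : ∑ v ∈ S, (1 : ℤ) ≤ ∑ v ∈ S, W u v ^ 2 := Finset.sum_le_sum fun v hv => by
      have h3 : W u v ≠ 0 := hS hv
      have h4 : 0 < W u v ^ 2 := by positivity
      omega
    simpa using this
  rw [hc] at h2
  norm_num at h2
  linarith

theorem conn_symm (hs : ∀ u v, W u v = W v u) {u v : V} (h : Conn W u v) : Conn W v u := by
  induction h with
  | refl => exact Relation.ReflTransGen.refl
  | tail _ hbc ih => exact Relation.ReflTransGen.head (by rw [hs]; exact hbc) ih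

theorem conn_path (hs : ∀ u v, W u v = W v u) {z : ℤ → V} (hz : ∀ j, W (z j) (z (j + 1)) ≠ 0)
    (i j : ℤ) : Conn W (z i) (z j) := by
  have key : ∀ (n : ℕ) (i : ℤ), Conn W (z i) (z (i + n)) := by
    intro n i
    induction n with
    | zero =>
      rw [show i + ((0 : ℕ) : ℤ) = i by simp]
      exact Relation.ReflTransGen.refl
    | succ n ih =>
      refine Relation.ReflTransGen.tail ih ?_
      rw [show i + ((n + 1 : ℕ) : ℤ) = i + n + 1 by push_cast; ring]
      exact hz (i + n)
  rcases le_total i j with h | h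
  · have := key (j - i).toNat i
    rwa [show i + ((j - i).toNat : ℤ) = j by omega] at this
  · have := key (i - j).toNat j
    rw [show j + ((i - j).toNat : ℤ) = i by omega] at this
    exact conn_symm hs this

end gen

section mat

variable {G : Type} [CommGroup G] {κ : Type}

theorem mv_inj {ι : Type} (g : G) {u v : Vx G ι κ} : mv g u = mv g v ↔ u = v := by
  constructor
  · intro h
    have h1 := congrArg (mv g⁻¹) h
    rwa [← mv_mul, ← mv_mul, inv_mul_cancel, mv_one, mv_one] at h1
  · intro h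
    rw [h]

theorem brr_coeff (x : MonoidAlgebra ℤ G) (g : G) : (brr G x).coeff g = x.coeff g⁻¹ := by
  have h : (Finsupp.mapDomain (fun g : G => g⁻¹) x.coeff) (g⁻¹)⁻¹ = x.coeff g⁻¹ :=
    Finsupp.mapDomain_apply inv_injective _ _
  rw [inv_inv] at h
  exact h

theorem star_coeff [Fintype κ] [DecidableEq κ] (A : Matrix κ κ (MonoidAlgebra ℤ G)) (i i' : κ)
    (g : G) (S : Finset (Vx G κ κ)) (hS : ∀ v, wz A (Sum.inl (1, i)) v ≠ 0 → v ∈ S) :
    ((A * (A.transpose.map (brr G))) i i').coeff g =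
      ∑ v ∈ S, wz A (Sum.inl (1, i)) v * wz A (Sum.inl (g, i')) v := by
  classical
  rw [Matrix.mul_apply, MonoidAlgebra.coeff_sum, Finsupp.finsetSum_apply]
  have h1 : ∀ j, (A i j * (A.transpose.map (brr G)) j i').coeff g =
      ∑ a ∈ (A i j).coeff.support, wz A (Sum.inl (1, i)) (Sum.inr (a, j)) *
        wz A (Sum.inl (g, i')) (Sum.inr (a, j)) := by
    intro j
    rw [MonoidAlgebra.coeff_mul_apply_left, Finsupp.sum]
    refine Finset.sum_congr rfl fun a _ => ?_
    rw [Matrix.map_apply, Matrix.transpose_apply, brr_coeff]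
    simp only [wz, inv_one, one_mul, mul_inv_rev, inv_inv]
  simp only [h1]
  rw [Finset.sum_sigma']
  have hinj : Function.Injective (fun x : (Σ _ : κ, G) => (Sum.inr (x.2, x.1) : Vx G κ κ)) := by
    rintro ⟨j, a⟩ ⟨j', a'⟩ h
    simp only [Sum.inr.injEq, Prod.mk.injEq] at h
    obtain ⟨rfl, rfl⟩ := h
    rfl
  rw [← Finset.sum_image (s := Finset.univ.sigma fun j => (A i j).coeff.support)
    (g := fun x : (Σ _ : κ, G) => (Sum.inr (x.2, x.1) : Vx G κ κ))
    (f := fun v => wz A (Sum.inl (1, i)) v * wz A (Sum.inl (g, i')) v) hinj.injOn]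
  apply Finset.sum_subset
  · intro v hv
    rw [Finset.mem_image] at hv
    obtain ⟨⟨j, a⟩, hja, rfl⟩ := hv
    apply hS
    rw [Finset.mem_sigma, Finsupp.mem_support_iff] at hja
    simpa [wz] using hja.2
  · intro v _ hv
    by_contra hne
    have h2 : wz A (Sum.inl (1, i)) v ≠ 0 := left_ne_zero_of_mul hne
    rcases v with v | ⟨a, j⟩
    · exact h2 rfl
    · apply hv
      rw [Finset.mem_image]
      refine ⟨⟨j, a⟩, ?_, rfl⟩
      rw [Finset.mem_sigma, Finsupp.mem_support_iff]
      refine ⟨Finset.mem_univ _, ?_⟩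
      simpa [wz] using h2

theorem t_four : S_deg → S_geo → S_tor → S_four := by
  intro hdeg hgeo htor G _ κ _ _ A c hN hIrr z z' L L' d d' hL hL' hz hz' hzz hzz' hd hd' hdis
    hconn
  classical
  have hsym := hN.symm
  have hfin : ∀ u, {v | wz A u v ≠ 0}.Finite := nb_fin hdeg hN
  obtain ⟨p, hp, hpz⟩ := hgeo _ (wz A) hsym hN.loop hfin (mv d) (wz_mv A d) z L hL hz hzz hd
  obtain ⟨q, hq, hqz⟩ :=
    hgeo _ (wz A) hsym hN.loop hfin (mv d') (wz_mv A d') z' L' hL' hz' hzz' hd'
  have hpq : Dis p q := by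
    intro i j h
    obtain ⟨a, ha⟩ := hpz i
    obtain ⟨b, hb⟩ := hqz j
    exact hdis a b (by rw [← ha, ← hb, h])
  have hc : Conn (wz A) (p 0) (q 0) := by
    obtain ⟨a, ha⟩ := hpz 0
    obtain ⟨b, hb⟩ := hqz 0
    rw [ha, hb]
    exact ((conn_path hsym hzz a 0).trans hconn).trans (conn_path hsym hzz' 0 b)
  obtain ⟨hK, hsum⟩ := htor _ (wz A) c hN p q hp hq hpq hc
  -- every row index occurs
  have hI : ∀ i : κ, ∃ g : G, (Sum.inl (g, i) : Vx G κ κ) ∈ Set.range p ∪ Set.range q := by
    have h := hIrr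
      (Finset.univ.filter (fun i => ∃ g : G, (Sum.inl (g, i) : Vx G κ κ) ∈
        Set.range p ∪ Set.range q))
      (Finset.univ.filter (fun j => ∃ g : G, (Sum.inr (g, j) : Vx G κ κ) ∈
        Set.range p ∪ Set.range q)) (by
        intro i j hij
        obtain ⟨a, ha⟩ : ∃ a, (A i j).coeff a ≠ 0 := by
          by_contra hcon
          push Not at hcon
          apply hij
          ext a
          simpa using hcon a
        simp only [Finset.mem_filter, Finset.mem_univ, true_and]
        constructor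
        · rintro ⟨g, hg⟩
          refine ⟨g * a, hK _ _ hg ?_⟩
          simpa [wz] using ha
        · rintro ⟨g, hg⟩
          refine ⟨g * a⁻¹, hK _ _ hg ?_⟩
          simp only [wz]
          rwa [show (g * a⁻¹)⁻¹ * g = a by group])
    rcases h with ⟨h1, h2⟩ | ⟨h1, h2⟩
    · exfalso
      rcases hp0 : p 0 with ⟨g, i⟩ | ⟨g, j⟩
      · have : i ∈ (∅ : Finset κ) := by
          rw [← h1, Finset.mem_filter]
          exact ⟨Finset.mem_univ _, g, Or.inl ⟨0, hp0⟩⟩
        exact absurd this (Finset.notMem_empty _)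
      · have : j ∈ (∅ : Finset κ) := by
          rw [← h2, Finset.mem_filter]
          exact ⟨Finset.mem_univ _, g, Or.inl ⟨0, hp0⟩⟩
        exact absurd this (Finset.notMem_empty _)
    · intro i
      have : i ∈ (Finset.univ : Finset κ) := Finset.mem_univ i
      rw [← h1, Finset.mem_filter] at this
      exact this.2
  have hrow : ∀ (g : G) (i : κ) (u' : Vx G κ κ) (S : Finset (Vx G κ κ)),
      (∀ v, wz A (Sum.inl (g, i)) v ≠ 0 → v ∈ S) →
      ∑ v ∈ S, wz A (Sum.inl (g, i)) v * wz A u' v = if Sum.inl (g, i) = u' then 4 else 0 := by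
    intro g i u' S hS
    obtain ⟨g', hg'⟩ := hI i
    have hm : (Sum.inl (g', i) : Vx G κ κ) = mv (g' * g⁻¹) (Sum.inl (g, i)) := by simp [mv]
    rw [hm] at hg'
    have h1 := hsum _ hg' (mv (g' * g⁻¹) u') (S.image (mv (g' * g⁻¹))) (by
      intro v hv
      rw [Finset.mem_image]
      refine ⟨mv (g' * g⁻¹)⁻¹ v, hS _ ?_, by rw [← mv_mul, mul_inv_cancel, mv_one]⟩
      rw [← wz_mv A (g' * g⁻¹), ← mv_mul, mul_inv_cancel, mv_one]
      exact hv)
    rw [Finset.sum_image (fun x _ y _ h => (mv_inj _).1 h)] at h1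
    simp only [wz_mv, mv_inj] at h1
    exact h1
  ext i i' g
  rw [star_coeff A i i' g (hfin (Sum.inl (1, i))).toFinset
    (fun v hv => by rw [Set.Finite.mem_toFinset]; exact hv),
    hrow 1 i _ _ (fun v hv => by rw [Set.Finite.mem_toFinset]; exact hv)]
  rw [Matrix.ofNat_apply]
  by_cases h : i = i'
  · subst h
    rw [if_pos rfl, MonoidAlgebra.coeff_natCast]
    by_cases h' : (1 : G) = g
    · subst h'
      simp
    · rw [if_neg (by simpa using h')]
      rw [Finsupp.single_apply, if_neg h']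
  · rw [if_neg h, if_neg (by simp [h])]
    simp

end mat

end Pool.Agent.Q150.BD
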